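import Mathlib

/-! The asymptotic dimension of a discrete group. -/

set_option autoImplicit false

namespace Pool.Agent.Lib.MP_07d80f_al

/-- For every finite set `S` of steps, `G` has a colouring with `n + 1` colours whose
monochromatic `S`-components are uniformly bounded. -/
def AsdimLE (G : Type) [Group G] (n : ℕ) : Prop :=
  ∀ S : Finset G, ∃ (F : Finset G) (c : G → Fin (n + 1)), ∀ x y : G,
    Relation.EqvGen (fun a b => c a = c b ∧ a⁻¹ * b ∈ S) x y → x⁻¹ * y ∈ F

/-- The asymptotic dimension. -/
noncomputable def asdim (G : Type) [Group G] : ℕ∞ := ⨅ (n : ℕ) (_ : AsdimLE G n), (n : ℕ∞)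

end Pool.Agent.Lib.MP_07d80f_al
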