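import Pool.Agent.Lib.MP_07d80f_al.As.Un
import Pool.Agent.Lib.MP_74e69a_co.Kuhn

/-! The asymptotic dimension of a free abelian group is at least its rank. -/

set_option autoImplicit false

namespace Pool.Agent.Lib.MP_07d80f_al

open Relation

theorem le_of_asdimLE {n m : ℕ} (h : AsdimLE (Multiplicative (Fin n → ℤ)) m) : n ≤ m := by
  classical
  by_contra hn
  have hn' : m + 1 ≤ n := by omega
  let S : Finset (Multiplicative (Fin n → ℤ)) :=
    (Fintype.piFinset fun _ => Finset.Icc (-2 : ℤ) 2).map Multiplicative.ofAdd.toEmbedding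
  obtain ⟨F, c, hc⟩ := h S
  obtain ⟨D, hD⟩ : ∃ D : ℕ, ∀ v ∈ F, ∀ j, |v.toAdd j| ≤ D := by
    refine ⟨F.sup fun v => Finset.univ.sup fun j => (v.toAdd j).natAbs, fun v hv j => ?_⟩
    rw [← Int.natCast_natAbs, Nat.cast_le]
    exact (Finset.le_sup (f := fun j => (v.toAdd j).natAbs) (Finset.mem_univ j)).trans
      (Finset.le_sup (f := fun v : Multiplicative (Fin n → ℤ) =>
        Finset.univ.sup fun j => (v.toAdd j).natAbs) hv)
  let σ := EqvGen.setoid fun a b => c a = c b ∧ a⁻¹ * b ∈ S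
  let ρ : Multiplicative (Fin n → ℤ) → Fin n → ℤ := fun y => (Quotient.mk σ y).out.toAdd
  have h1 : ∀ y j, |y.toAdd j - ρ y j| ≤ D := fun y j => by
    have := hD _ (hc _ _ (Quotient.mk_out (s := σ) y)) j
    rwa [toAdd_mul, toAdd_inv, neg_add_eq_sub] at this
  let nr : Fin n → Multiplicative (Fin n → ℤ) → (Fin n → ℕ) → Prop := fun i y z =>
    (c y).castLE hn' = i ∧ ∀ j, |y.toAdd j - z j| ≤ 1
  obtain ⟨p, hp⟩ := Pool.Agent.Lib.MP_74e69a_co.kuhn (fun _ : Fin n => 2 * D + 3)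
    (fun i z => (∃ y, nr i y z ∧ (D : ℤ) + 1 < ρ y i) ∨ ((¬ ∃ y, nr i y z) ∧ z i ≠ 0))
    fun i z _ => ⟨fun e => by
      rintro (⟨y, h2, h3⟩ | h2)
      · have h4 := abs_le.1 (h2.2 i)
        have h5 := abs_le.1 (h1 y i)
        omega
      · exact h2.2 e, fun e => by
      by_cases h2 : ∃ y, nr i y z
      · obtain ⟨y, h2⟩ := h2
        have h4 := abs_le.1 (h2.2 i)
        have h5 := abs_le.1 (h1 y i)
        exact .inl ⟨y, h2, by omega⟩
      · exact .inr ⟨h2, by omega⟩⟩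
  let q : Multiplicative (Fin n → ℤ) := Multiplicative.ofAdd fun j => (p j : ℤ)
  obtain ⟨a, b, ha, hb, h2, h3⟩ := hp ((c q).castLE hn')
  have h4 : ∀ z : Fin n → ℕ, (∀ j, p j ≤ z j ∧ z j ≤ p j + 1) → nr ((c q).castLE hn') q z :=
    fun z hz => ⟨rfl, fun j => by
      have := hz j
      rw [show q.toAdd j = p j from rfl, abs_le]
      omega⟩
  obtain ⟨y, h5, h6⟩ := h3.resolve_right fun h => h.1 ⟨q, h4 b hb⟩
  refine h2 (.inl ⟨q, h4 a ha, ?_⟩)
  have h7 : Quotient.mk σ q = Quotient.mk σ y := by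
    refine Quotient.sound (EqvGen.rel _ _ ⟨(Fin.castLE_injective hn' h5.1).symm, ?_⟩)
    refine Finset.mem_map.2 ⟨(q⁻¹ * y).toAdd, Fintype.mem_piFinset.2 fun j => ?_, rfl⟩
    have h8 := abs_le.1 (h5.2 j)
    have h9 := abs_le.1 ((h4 b hb).2 j)
    rw [toAdd_mul, toAdd_inv, Finset.mem_Icc, Pi.add_apply, Pi.neg_apply]
    omega
  simpa only [ρ, h7] using h6

end Pool.Agent.Lib.MP_07d80f_al
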