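import Mathlib

/-! Rooted trees: heights, parents and ancestors. -/

set_option autoImplicit false

namespace Pool.Agent.Lib.MP_07d80f_al

open Relation SimpleGraph

variable {V : Type}

/-- A rooted tree with height `h` and parent map `par`. -/
structure Rt (adj : V → V → Prop) (o : V) (h : V → ℕ) (par : V → V) : Prop where
  symm : ∀ u v, adj u v → adj v u
  zero : ∀ v, h v = 0 ↔ v = o
  up : ∀ v, v ≠ o → adj v (par v) ∧ h (par v) + 1 = h v
  edge : ∀ u v, adj u v → (v = par u ∧ h v + 1 = h u) ∨ (u = par v ∧ h u + 1 = h v)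

theorem exists_rt {Γ : SimpleGraph V} (hΓ : Γ.IsTree) (o : V) :
    ∃ (h : V → ℕ) (par : V → V), Rt Γ.Adj o h par := by
  have hc := hΓ.connected
  have ex : ∀ v, ∃ u, v ≠ o → Γ.Adj v u ∧ Γ.dist u o + 1 = Γ.dist v o := fun v => by
    obtain ⟨p, hp⟩ := hc.exists_walk_length_eq_dist v o
    cases p with
    | nil => exact ⟨o, fun h => (h rfl).elim⟩
    | @cons _ u _ a q =>
      refine ⟨u, fun _ => ⟨a, ?_⟩⟩
      have h1 := dist_le q
      have h2 := hΓ.dist_eq_dist_add_one_of_adj o a
      rw [dist_comm (u := o), dist_comm (u := o)] at h2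
      rw [Walk.length_cons] at hp
      omega
  have un : ∀ v u u', Γ.Adj v u → Γ.Adj v u' → Γ.dist u o + 1 = Γ.dist v o →
      Γ.dist u' o + 1 = Γ.dist v o → u = u' := fun v u u' a a' e e' => by
    obtain ⟨q, hq⟩ := hc.exists_walk_length_eq_dist u o
    obtain ⟨q', hq'⟩ := hc.exists_walk_length_eq_dist u' o
    have h1 := (Walk.cons a q).isPath_of_length_eq_dist (by rw [Walk.length_cons, hq, e])
    have h2 := (Walk.cons a' q').isPath_of_length_eq_dist (by rw [Walk.length_cons, hq', e'])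
    have h3 := (hΓ.existsUnique_path v o).unique h1 h2
    simpa using congrArg (fun p => p.getVert 1) h3
  choose par hpar using ex
  have lo : ∀ u v, Γ.Adj u v → Γ.dist v o + 1 = Γ.dist u o → v = par u := fun u v a e => by
    have : u ≠ o := by
      rintro rfl
      rw [dist_self] at e
      omega
    exact un u _ _ a (hpar u this).1 e (hpar u this).2
  refine ⟨fun v => Γ.dist v o, par, fun _ _ => Adj.symm, fun v => hc.dist_eq_zero_iff, hpar,
    fun u v a => ?_⟩
  have h2 := hΓ.dist_eq_dist_add_one_of_adj o a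
  rw [dist_comm (u := o), dist_comm (u := o)] at h2
  exact h2.imp (fun e => ⟨lo u v a e.symm, e.symm⟩) fun e => ⟨lo v u a.symm e.symm, e.symm⟩

theorem isTree_of {E : Type} (s t : E → V) (v₀ : V)
    (hconn : ∀ (M : Type) (f : V → M), (∀ e, f (t e) = f (s e)) → ∀ v, f v = f v₀)
    (hsurj : ∀ φ : E → ZMod 2, ∃ f : V → ZMod 2, ∀ e, f (t e) - f (s e) = φ e) :
    (fromRel fun u v => ∃ e, s e = u ∧ t e = v).IsTree := by
  classical
  set Γ := fromRel fun u v => ∃ e, s e = u ∧ t e = v with hΓ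
  have ad : ∀ u v, Γ.Adj u v → ∃ e, s(s e, t e) = s(u, v) := fun u v a => by
    obtain ⟨-, ⟨e, rfl, rfl⟩ | ⟨e, rfl, rfl⟩⟩ := (fromRel_adj _ _ _).1 a
    exacts [⟨e, rfl⟩, ⟨e, Sym2.eq_swap⟩]
  refine ⟨?_, isAcyclic_iff_forall_adj_isBridge.2 fun v w a hr => ?_⟩
  · have re : ∀ v, Γ.Reachable v₀ v := fun v => by
      refine (hconn Prop (Γ.Reachable v₀) (fun e => ?_) v).mpr (.refl _)
      by_cases h : s e = t e
      · rw [h]
      · have : Γ.Adj (s e) (t e) := (fromRel_adj _ _ _).2 ⟨h, .inl ⟨e, rfl, rfl⟩⟩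
        exact propext ⟨fun k => k.trans this.symm.reachable, fun k => k.trans this.reachable⟩
    have : Nonempty V := ⟨v₀⟩
    exact ⟨fun u v => (re u).symm.trans (re v)⟩
  · obtain ⟨f, hf⟩ := hsurj fun e => if s(s e, t e) = s(v, w) then 1 else 0
    have h1 : ∀ x y e, s(s e, t e) = s(x, y) → (f x = f y ↔ f (t e) - f (s e) = 0) := by
      intro x y e h
      rw [sub_eq_zero]
      rcases Sym2.eq_iff.1 h with ⟨rfl, rfl⟩ | ⟨rfl, rfl⟩
      exacts [eq_comm, Iff.rfl]
    have h2 : ∀ x y, (Γ.deleteEdges {s(v, w)}).Reachable x y → f x = f y := by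
      rintro x y ⟨p⟩
      induction p with
      | nil => rfl
      | cons b _ ih =>
        rw [deleteEdges_adj] at b
        obtain ⟨e, he⟩ := ad _ _ b.1
        refine ((h1 _ _ e he).2 ?_).trans ih
        rw [hf, he]
        exact if_neg b.2
    obtain ⟨e, he⟩ := ad _ _ a
    have h3 := (h1 _ _ e he).1 (h2 _ _ hr)
    rw [hf, if_pos he] at h3
    exact one_ne_zero h3

/-- There is a walk of length at most `k`. -/
inductive Nr (adj : V → V → Prop) : ℕ → V → V → Prop
  | refl (k : ℕ) (u : V) : Nr adj k u u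
  | step {k : ℕ} {u v w : V} : adj u v → Nr adj k v w → Nr adj (k + 1) u w

variable {adj : V → V → Prop} {o : V} {h : V → ℕ} {par : V → V} {k l R : ℕ} {u v w : V}

theorem Nr.mono (a : Nr adj k u v) (hl : k ≤ l) : Nr adj l u v := by
  induction a generalizing l with
  | refl => exact .refl _ _
  | step b _ ih =>
    obtain ⟨l, rfl⟩ : ∃ j, l = j + 1 := ⟨l - 1, by omega⟩
    exact .step b (ih (by omega))

theorem Nr.trans (a : Nr adj k u v) (b : Nr adj l v w) : Nr adj (k + l) u w := by
  induction a with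
  | refl => exact b.mono (by omega)
  | step c _ ih => exact (Nr.step c (ih b)).mono (by omega)

theorem Nr.symm (T : Rt adj o h par) (a : Nr adj k u v) : Nr adj k v u := by
  induction a with
  | refl => exact .refl _ _
  | step c _ ih => exact ih.trans (.step (T.symm _ _ c) (.refl 0 _))

theorem Nr.map {f : V → V} (hf : ∀ a b, adj a b → adj (f a) (f b)) (a : Nr adj k u v) :
    Nr adj k (f u) (f v) := by
  induction a with
  | refl => exact .refl _ _
  | step c _ ih => exact .step (hf _ _ c) ih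

theorem Nr.le (T : Rt adj o h par) (a : Nr adj k u v) : h v ≤ h u + k := by
  induction a with
  | refl => omega
  | step c _ ih => rcases T.edge _ _ c with e | e <;> omega

theorem Nr.hull (a : Nr adj k u v) : ∃ T : Set V, T.Finite ∧ u ∈ T ∧
    ReflTransGen (fun x y => adj x y ∧ x ∈ T ∧ y ∈ T) u v := by
  induction a with
  | refl _ u => exact ⟨{u}, Set.finite_singleton _, rfl, .refl⟩
  | @step _ u _ _ c _ ih =>
    obtain ⟨T, h1, h2, h3⟩ := ih
    exact ⟨insert u T, h1.insert _, .inl rfl, .head ⟨c, .inl rfl, .inr h2⟩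
      (ReflTransGen.mono (fun _ _ e => ⟨e.1, .inr e.2.1, .inr e.2.2⟩) _ _ h3)⟩

/-- The ancestor of height `R`. -/
def anc (h : V → ℕ) (par : V → V) (R : ℕ) (u : V) : V := par^[h u - R] u

theorem Rt.iter (T : Rt adj o h par) (hk : k ≤ h u) :
    Nr adj k u (par^[k] u) ∧ h (par^[k] u) + k = h u := by
  induction k generalizing u with
  | zero => exact ⟨.refl _ _, rfl⟩
  | succ k ih =>
    obtain ⟨h1, h2⟩ := T.up u fun e => by have := (T.zero u).2 e; omega
    obtain ⟨h3, h4⟩ := ih (u := par u) (by omega)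
    rw [Function.iterate_succ_apply]
    exact ⟨.step h1 h3, by omega⟩

theorem Rt.nr_anc (T : Rt adj o h par) : Nr adj (h u - R) u (anc h par R u) :=
  (T.iter (Nat.sub_le _ _)).1

theorem Rt.anc_zero (T : Rt adj o h par) (u : V) : anc h par 0 u = o :=
  (T.zero _).1 (by have := (T.iter (u := u) le_rfl).2; simp only [anc, Nat.sub_zero]; omega)

theorem Rt.nr (T : Rt adj o h par) (u v : V) : ∃ k, Nr adj k u v :=
  ⟨_, (T.anc_zero u ▸ T.nr_anc (u := u) (R := 0)).trans
    ((T.anc_zero v ▸ T.nr_anc (u := v) (R := 0)).symm T)⟩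

theorem anc_self (e : h u ≤ R) : anc h par R u = u := by
  rw [anc, Nat.sub_eq_zero_of_le e, Function.iterate_zero_apply]

theorem Rt.anc_edge (T : Rt adj o h par) (a : adj u v) (h1 : R ≤ h u) (h2 : R ≤ h v) :
    anc h par R u = anc h par R v := by
  rcases T.edge _ _ a with ⟨rfl, e⟩ | ⟨rfl, e⟩
  · rw [anc, anc, ← Function.iterate_succ_apply]
    congr 1
    omega
  · rw [anc, anc, ← Function.iterate_succ_apply]
    congr 1
    omega

theorem Rt.anc_nr (T : Rt adj o h par) (a : Nr adj k u v) (e : R + k ≤ h u) :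
    anc h par R u = anc h par R v := by
  induction a with
  | refl => rfl
  | step c _ ih =>
    rcases T.edge _ _ c with e' | e' <;>
      exact (T.anc_edge c (by omega) (by omega)).trans (ih (by omega))

theorem Rt.anc_rtg (T : Rt adj o h par)
    (a : ReflTransGen (fun x y => adj x y ∧ R ≤ h x ∧ R ≤ h y) u v) :
    anc h par R u = anc h par R v := by
  induction a with
  | refl => rfl
  | tail _ c ih => exact ih.trans (T.anc_edge c.1 c.2.1 c.2.2)

end Pool.Agent.Lib.MP_07d80f_al
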