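import Pool.Agent.Lib.MP_07d80f_al.As.Un
import Pool.Agent.Lib.MP_07d80f_al.As.Root

/-! Groups acting on trees: the asymptotic dimension grows by at most one. -/

set_option autoImplicit false

namespace Pool.Agent.Lib.MP_07d80f_al

open Relation Set
open scoped Pointwise

variable {G V : Type} [Group G] [MulAction G V] {adj : V → V → Prop} {o : V} {h : V → ℕ}
  {par : V → V} {n : ℕ}

theorem ud_fibre (p : V) (hp : AsdimLE (MulAction.stabilizer G p) n) :
    UD (Fin (n + 1)) fun u : V => {g : G | g • p = u} := by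
  intro S hS
  obtain ⟨F, hF, hd⟩ := hp.dm hS
  refine ⟨F, hF, fun u => ?_⟩
  by_cases hu : ∃ g : G, g • p = u
  · obtain ⟨g, rfl⟩ := hu
    refine hd.shift g⁻¹ fun b hb => ?_
    rw [SetLike.mem_coe, MulAction.mem_stabilizer_iff, mul_smul, show b • p = g • p from hb,
      inv_smul_smul]
  · exact hd.mono fun g hg => (hu ⟨g, hg⟩).elim

theorem ball_dm (T : Rt adj o h par) (hG : ∀ (g : G) u v, adj u v → adj (g • u) (g • v))
    (hV : ∀ v : V, AsdimLE (MulAction.stabilizer G v) n) (R : ℕ) :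
    ∀ P : Set V, P.Finite → ∀ S : Set G, S.Finite → ∃ F : Set G, F.Finite ∧
      Dm (Fin (n + 1)) S F {g | ∃ p ∈ P, h (g • p) < R} := by
  induction R with
  | zero => exact fun P _ S _ => ⟨{1}, finite_singleton _, by simpa using dm_empty S⟩
  | succ R ih =>
    intro P hP S hS
    choose W hW _ hw using fun p q : V => (T.nr p q).choose_spec.hull
    let P' : Set V := P ∪ ⋃ p ∈ P, ⋃ q ∈ P, ⋃ s ∈ S, W p (s • q)
    have hP' : P'.Finite :=
      hP.union (hP.biUnion fun _ _ => hP.biUnion fun _ _ => hS.biUnion fun _ _ => hW _ _)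
    obtain ⟨F, hF, h1⟩ := UD.biUnion hP (fun p => ud_fibre p (hV p)) S hS
    obtain ⟨F', hF', h2⟩ := ih P' hP' _ (sc_fin hS hF)
    let A : Set G := {g | (∃ p ∈ P, h (g • p) < R + 1) ∧ ∀ p ∈ P', R ≤ h (g • p)}
    have : Nonempty V := ⟨o⟩
    choose! π hπ hπ' using fun g (hg : g ∈ A) => hg.1
    have h3 : Dm (Fin (n + 1)) S F A := by
      refine Dm.fibres (fun g => g • π g) (fun a ha b hb hs => ?_) fun u => (h1 u).mono ?_
      · have k := T.anc_rtg (R := R) (ReflTransGen.lift (a • ·) (fun x y e => by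
          have m : ∀ z ∈ W (π a) ((a⁻¹ * b) • π b), R ≤ h (a • z) := fun z hz => ha.2 z (.inr
            (mem_biUnion (hπ a ha) (mem_biUnion (hπ b hb) (mem_biUnion hs hz))))
          exact ⟨hG a _ _ e.1, m _ e.2.1, m _ e.2.2⟩) _ _ (hw (π a) ((a⁻¹ * b) • π b)))
        simp only at k
        rw [smul_smul, mul_inv_cancel_left, anc_self (Nat.le_of_lt_succ (hπ' a ha)),
          anc_self (Nat.le_of_lt_succ (hπ' b hb))] at k
        exact k
      · exact fun g hg => mem_biUnion (hπ g hg.1) hg.2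
    refine ⟨_, un_fin hS hF hF', (h3.union h2).mono fun g hg => ?_⟩
    by_cases hc : ∀ p ∈ P', R ≤ h (g • p)
    · exact .inl ⟨hg, hc⟩
    · push Not at hc
      exact .inr hc

theorem exists_lip (T : Rt adj o h par) {S : Set G} (hS : S.Finite) :
    ∃ k, ∀ s ∈ S, Nr adj k o (s • o) := by
  choose k hk using fun s : G => T.nr o (s • o)
  obtain ⟨K, hK⟩ := (hS.image k).bddAbove
  exact ⟨K, fun s hs => (hk s).mono (hK (mem_image_of_mem k hs))⟩

theorem nr_step (hG : ∀ (g : G) u v, adj u v → adj (g • u) (g • v)) {k : ℕ} {a b : G}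
    (e : Nr adj k o ((a⁻¹ * b) • o)) : Nr adj k (a • o) (b • o) := by
  simpa only [smul_smul, mul_inv_cancel_left] using e.map (hG a)

theorem band_ud (T : Rt adj o h par) (hG : ∀ (g : G) u v, adj u v → adj (g • u) (g • v))
    (hV : ∀ v : V, AsdimLE (MulAction.stabilizer G v) n) {L : ℕ} (hL : 0 < L) :
    UD (Fin (n + 1)) fun t : ℕ => {g : G | h (g • o) / L = t} := by
  intro S hS
  obtain ⟨k, hk⟩ := exists_lip T hS
  obtain ⟨F, hF, hd⟩ := ball_dm T hG hV (L + k + (L + k) + 1) {o} (finite_singleton o) S hS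
  refine ⟨F, hF, fun t => ?_⟩
  have bd : ∀ g : G, h (g • o) / L = t → L * t ≤ h (g • o) ∧ h (g • o) < L * t + L := by
    rintro g rfl
    exact ⟨Nat.mul_div_le _ _, Nat.lt_mul_div_succ _ hL⟩
  refine Dm.fibres (fun g => anc h par (L * t - k) (g • o)) (fun a ha b _ hs => ?_) fun u => ?_
  · rcases Nat.eq_zero_or_pos (L * t - k) with e | e
    · simp only [e, T.anc_zero]
    · exact T.anc_nr (nr_step hG (hk _ hs)) (by have := bd a ha; omega)
  · by_cases hu : ∃ g ∈ {g : G | h (g • o) / L = t}, anc h par (L * t - k) (g • o) = u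
    · obtain ⟨g, hg, e⟩ := hu
      have nr : ∀ b : G, h (b • o) / L = t → anc h par (L * t - k) (b • o) = u →
          Nr adj (L + k) (b • o) u := fun b hb e =>
        e ▸ T.nr_anc.mono (by have := bd b hb; omega)
      refine hd.shift g⁻¹ fun b hb => ⟨o, rfl, ?_⟩
      have h1 := (((nr g hg e).trans ((nr b hb.1 hb.2).symm T)).map (hG g⁻¹)).le T
      rw [inv_smul_smul, smul_smul, (T.zero o).2 rfl] at h1
      omega
    · exact hd.mono fun g hg => (hu ⟨g, hg.1, hg.2⟩).elim

theorem div_step {N i a b : ℕ} (hi : i < N) (ha : a % N ≠ i) (hb : b % N ≠ i) (h1 : a ≤ b + 1)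
    (h2 : b ≤ a + 1) : (a + N - i) / N = (b + N - i) / N := by
  have key : ∀ a, (a + 1) % N ≠ i → (a + N - i) / N = (a + 1 + N - i) / N := fun a ha => by
    rw [show a + 1 + N - i = a + N - i + 1 by omega, Nat.succ_div, if_neg, add_zero]
    intro hd
    have : a + 1 + N ≡ i [MOD N] := by
      rw [Nat.ModEq.comm, Nat.modEq_iff_dvd' (by omega), show a + 1 + N - i = a + N - i + 1 by omega]
      exact hd
    rw [Nat.ModEq, Nat.add_mod_right, Nat.mod_eq_of_lt hi] at this
    exact ha this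
  obtain rfl | rfl | rfl : a = b ∨ a = b + 1 ∨ b = a + 1 := by omega
  exacts [rfl, (key b ha).symm, key a hb]

theorem div_uniq {N i a b : ℕ} (hi : i < N) (h1 : a % N = b % N)
    (h2 : (a + N - i) / N = (b + N - i) / N) : a = b := by
  have h3 : a + (N - i) ≡ b + (N - i) [MOD N] := Nat.ModEq.add_right _ h1
  have h4 := Nat.div_add_mod (a + N - i) N
  have h5 := Nat.div_add_mod (b + N - i) N
  rw [Nat.ModEq, show a + (N - i) = a + N - i by omega, show b + (N - i) = b + N - i by omega] at h3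
  rw [h2, h3, h5] at h4
  omega

theorem asdimLE_of_bands (t : G → ℕ) {S : Set G} (hS : S.Finite)
    (ht : ∀ a b, a⁻¹ * b ∈ S → t a ≤ t b + 1 ∧ t b ≤ t a + 1)
    (hU : UD (Fin (n + 1)) fun i : ℕ => {g | t g = i}) :
    ∃ F : Set G, F.Finite ∧ Dm (Fin (n + 1 + 1)) S F univ := by
  choose! Φ hΦ hd using hU
  let E : ℕ → Set G := fun j => Nat.rec {1} (fun _ F => un S F (Φ (sc S F))) j
  have hE : ∀ j, (E j).Finite := fun j => by
    induction j with
    | zero => exact finite_singleton _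
    | succ j ih => exact un_fin hS ih (hΦ _ (sc_fin hS ih))
  choose d hd using fun j i => hd _ (sc_fin hS (hE j)) i
  let ρ : G → Fin (n + 1 + 1) := fun g => ⟨t g % (n + 1 + 1), Nat.mod_lt _ (by omega)⟩
  let c : G → Fin (n + 1 + 1) := fun g => (ρ g).succAbove (d (ρ g) (t g) g)
  have hc : ∀ g, t g % (n + 1 + 1) ≠ c g := fun g e =>
    Fin.succAbove_ne (ρ g) _ (Fin.ext e.symm)
  have inv : ∀ a b, TransGen (Mo S univ c) a b → c a = c b ∧
      (t a + (n + 1 + 1) - c a) / (n + 1 + 1) = (t b + (n + 1 + 1) - c a) / (n + 1 + 1) := by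
    have one : ∀ a b, Mo S univ c a b →
        (t a + (n + 1 + 1) - c a) / (n + 1 + 1) = (t b + (n + 1 + 1) - c a) / (n + 1 + 1) :=
      fun a b e => div_step (c a).2 (hc a) (e.2.2.1 ▸ hc b) (ht _ _ e.2.2.2).1 (ht _ _ e.2.2.2).2
    intro a b e
    induction e with
    | single e => exact ⟨e.2.2.1, one _ _ e⟩
    | tail _ e ih => exact ⟨ih.1.trans e.2.2.1, ih.2.trans (ih.1 ▸ one _ _ e)⟩
  have main : ∀ j, Bd (fun a b => Mo S univ c a b ∧ (ρ a : ℕ) < j ∧ (ρ b : ℕ) < j) (E j) := by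
    intro j
    induction j with
    | zero =>
      intro x y e
      cases e with
      | refl => exact inv_mul_cancel x
      | tail _ e => exact absurd e.2.1 (Nat.not_lt_zero _)
    | succ j ih =>
      refine bd_union (p := fun g => (ρ g : ℕ) < j) (fun _ _ e => e.1.2.2.2)
        (ih.mono fun _ _ e => ⟨e.1.1, e.2⟩) fun x y e => hd j (t x) x y ?_
      have : t y = t x ∧ ReflTransGen (Mo (sc S (E j)) {g | t g = t x} (d j (t x))) x y := by
        induction e with
        | refl => exact ⟨rfl, .refl⟩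
        | @tail a b _ e ih =>
          obtain ⟨h1, h2, h3, h4⟩ := e
          have h5 : (ρ a : ℕ) < j + 1 ∧ (ρ b : ℕ) < j + 1 ∧ TransGen (Mo S univ c) a b := by
            clear h2 h4
            induction h3 with
            | single e => exact ⟨e.2.1, e.2.2, .single e.1⟩
            | tail _ e ih => exact ⟨ih.1, e.2.2, ih.2.2.tail e.1⟩
          have ea : (ρ a : ℕ) = j := by omega
          have eb : (ρ b : ℕ) = j := by omega
          obtain ⟨h6, h7⟩ := inv a b h5.2.2
          have h8 : t a = t b := div_uniq (c a).2 (ea.trans eb.symm) h7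
          refine ⟨h8 ▸ ih.1, ih.2.tail ⟨ih.1, h8.symm.trans ih.1, ?_, h4⟩⟩
          simp only [c, Fin.ext (ea.trans eb.symm), eb, ← h8, ih.1] at h6
          exact Fin.succAbove_right_injective h6
      exact this.2
  exact ⟨E (n + 1 + 1), hE (n + 1 + 1), c, (main (n + 1 + 1)).mono fun a b e => ⟨e, (ρ a).2, (ρ b).2⟩⟩

theorem AsdimLE.of_rt (T : Rt adj o h par) (hG : ∀ (g : G) u v, adj u v → adj (g • u) (g • v))
    (hV : ∀ v : V, AsdimLE (MulAction.stabilizer G v) n) : AsdimLE G (n + 1) := by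
  refine asdimLE_of_dm fun S hS => ?_
  obtain ⟨k, hk⟩ := exists_lip T hS
  refine asdimLE_of_bands (fun g => h (g • o) / (k + 1)) hS (fun a b e => ?_)
    (band_ud T hG hV k.succ_pos)
  have h1 := nr_step hG (hk _ e)
  have key : ∀ x y : ℕ, x ≤ y + k → x / (k + 1) ≤ y / (k + 1) + 1 := fun x y e => by
    rw [← Nat.add_div_right y k.succ_pos]
    exact Nat.div_le_div_right (by omega)
  exact ⟨key _ _ ((h1.symm T).le T), key _ _ (h1.le T)⟩

theorem AsdimLE.of_tree {E : Type} [MulAction G E] (s t : E → V)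
    (hs : ∀ (g : G) (e : E), s (g • e) = g • s e) (ht : ∀ (g : G) (e : E), t (g • e) = g • t e)
    (v₀ : V) (hconn : ∀ (M : Type) (f : V → M), (∀ e, f (t e) = f (s e)) → ∀ v, f v = f v₀)
    (hsurj : ∀ φ : E → ZMod 2, ∃ f : V → ZMod 2, ∀ e, f (t e) - f (s e) = φ e)
    (hV : ∀ v : V, AsdimLE (MulAction.stabilizer G v) n) : AsdimLE G (n + 1) := by
  obtain ⟨h, par, T⟩ := exists_rt (isTree_of s t v₀ hconn hsurj) v₀
  refine AsdimLE.of_rt T (fun g u v a => ?_) hV
  rw [SimpleGraph.fromRel_adj] at a ⊢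
  refine ⟨fun e => a.1 (MulAction.injective g e), a.2.imp ?_ ?_⟩ <;>
  · rintro ⟨e, rfl, rfl⟩
    exact ⟨g • e, hs g e, ht g e⟩

end Pool.Agent.Lib.MP_07d80f_al
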