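import Pool.Agent.Lib.MP_07d80f_al.Bridge
import Pool.Agent.Lib.MP_07d80f_al.As.Tr
import Pool.Agent.Lib.MP_07d80f_al.As.Low

/-! The asymptotic dimension of a diagram group. -/

set_option autoImplicit false

namespace Pool.Agent.Lib.MP_07d80f_al

variable {S : Type} {P : SemigroupPresentation S}

theorem asdimLE_stabilizer {w : List S} {I : Type} {m : I → List S} (n : ℕ) (x : Pt P w m)
    (hb : AsdimLE (D P x.b) n) : AsdimLE (MulAction.stabilizer (D P w) x.mk') n := by
  let f : D P x.b →* U P :=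
    (MulAut.conj x.g⁻¹).toMonoidHom.comp ((W (x.a ++ m x.i) []).comp (D P x.b).subtype)
  have hf : Function.Injective f := by
    rw [injective_iff_map_eq_one]
    intro β hβ
    have h1 : W (x.a ++ m x.i) [] (β : U P) = 1 :=
      (MulAut.conj x.g⁻¹).injective (hβ.trans (map_one _).symm)
    exact Subtype.ext (Hom.eq_one_of_W β.2 h1)
  let j : MulAction.stabilizer (D P w) x.mk' →* U P :=
    (D P w).subtype.comp (MulAction.stabilizer (D P w) x.mk').subtype
  have hj : ∀ h, j h ∈ f.range := by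
    intro h
    have h1 : (Pt.smul (h : D P w) x).mk' = x.mk' := h.2
    obtain ⟨-, α, β, hα, hβ, hg⟩ := Pt.exact h1
    have hα1 : α = 1 := x.triv _ hα
    refine ⟨⟨β, hβ⟩, ?_⟩
    simp only [Pt.smul, hα1, map_one, one_mul] at hg
    change x.g⁻¹ * W (x.a ++ m x.i) [] β * x.g⁻¹⁻¹ = ((h : D P w) : U P)
    rw [← mul_assoc, eq_mul_inv_iff_mul_eq] at hg
    rw [inv_inv, mul_assoc, ← hg, inv_mul_cancel_left]
  refine AsdimLE.of_injective (j.codRestrict f.range hj) ?_
    (hb.of_injective (MonoidHom.ofInjective hf).symm.toMonoidHom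
      (MonoidHom.ofInjective hf).symm.injective)
  intro h h' hh
  have := congrArg Subtype.val hh
  exact Subtype.ext (Subtype.ext this)

theorem asdimLE_of_not_hasZ (n : ℕ) :
    ∀ w : List S, ¬ HasZ P w (n + 1) → AsdimLE (D P w) n := by
  have htriv : ∀ (w : List S) (n : ℕ), Triv P w → AsdimLE (D P w) n := by
    intro w n hw
    have : Subsingleton (D P w) :=
      ⟨fun g h => Subtype.ext ((hw _ g.2).trans (hw _ h.2).symm)⟩
    exact fun _ => ⟨{1}, fun _ => 0, fun _ _ _ => Finset.mem_singleton.2 (Subsingleton.elim _ _)⟩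
  have hne : ∀ q : List S, ¬ Triv P q → ∃ g : U P, Hom q g q ∧ g ≠ 1 := by
    intro q hq
    unfold Triv at hq
    push Not at hq
    exact hq
  induction n with
  | zero =>
    intro w hw
    apply htriv
    by_contra h
    exact hw (by simpa using HasZ.cons (hne w h) (hasZ_zero []))
  | succ n ih =>
    intro w hw
    by_cases ht : Triv P w
    · exact htriv w _ ht
    have hst : ∀ v : Vx P w, AsdimLE (MulAction.stabilizer (D P w) v) n := by
      intro v
      obtain ⟨x, rfl⟩ := v.exists_rep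
      refine asdimLE_stabilizer n x (ih _ fun hz => hw ?_)
      exact (HasZ.cons (hne _ x.ntriv) hz).conn ⟨_, x.hom.symm⟩
    exact AsdimLE.of_tree (srcV ht) (tgtV ht) (srcV_smul ht) (tgtV_smul ht) (vtx ht Hom.refl)
      (tree_conn ht) (fun φ => tree_surj φ ht) hst

theorem ad_le_asdim (G : Type) [Group G] : ad G ≤ asdim G := by
  unfold ad asdim
  refine iSup₂_le fun n hn => le_iInf₂ fun m hm => ?_
  obtain ⟨H, ⟨e⟩⟩ := hn
  exact_mod_cast le_of_asdimLE (hm.of_injective (H.subtype.comp e.symm.toMonoidHom)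
    (H.subtype_injective.comp e.symm.injective))

theorem asdim_eq_ad (G : Type) [Group G] (hG : IsDiagramGroup G) : asdim G = ad G := by
  obtain ⟨S, P, w, ⟨e⟩⟩ := hG
  refine le_antisymm ?_ (ad_le_asdim G)
  have e' := e.trans (diagramEquiv w)
  rcases eq_or_ne (ad G) ⊤ with h | h
  · rw [h]; exact le_top
  · obtain ⟨n, hn⟩ := ENat.ne_top_iff_exists.1 h
    rw [← hn]
    refine iInf₂_le n (AsdimLE.of_injective e'.toMonoidHom e'.injective
      (asdimLE_of_not_hasZ n w.word fun hz => ?_))
    have h1 := le_ad_of_hasZ e' hz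
    rw [← hn] at h1
    exact absurd (by exact_mod_cast h1 : n + 1 ≤ n) (by omega)

end Pool.Agent.Lib.MP_07d80f_al
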