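import Pool.Agent.Lib.MP_07d80f_al.As.Defs

/-! Bounded chains, unions and translates. -/

set_option autoImplicit false

namespace Pool.Agent.Lib.MP_07d80f_al

open Relation Set
open scoped Pointwise

variable {G : Type} [Group G] {κ I : Type}

/-- Chains of `r` are bounded by `F`. -/
def Bd (r : G → G → Prop) (F : Set G) : Prop := ∀ x y, ReflTransGen r x y → x⁻¹ * y ∈ F

theorem Bd.mono {r r' : G → G → Prop} {F : Set G} (h : Bd r F) (h' : ∀ a b, r' a b → r a b) :
    Bd r' F := fun x y hxy => h x y (by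
  induction hxy with
  | refl => exact .refl
  | tail _ k ih => exact ih.tail (h' _ _ k))

/-- The coarse scale. -/
def sc (S F : Set G) : Set G := S ∪ S * F * S

/-- The bound for a union. -/
def un (S F F' : Set G) : Set G := F ∪ insert 1 (F * S) * F' * insert 1 (S * F)

theorem sc_fin {S F : Set G} (hS : S.Finite) (hF : F.Finite) : (sc S F).Finite :=
  hS.union ((hS.mul hF).mul hS)

theorem un_fin {S F F' : Set G} (hS : S.Finite) (hF : F.Finite) (hF' : F'.Finite) :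
    (un S F F').Finite :=
  hF.union ((((hF.mul hS).insert 1).mul hF').mul ((hS.mul hF).insert 1))

theorem bd_union {r : G → G → Prop} {p : G → Prop} {S F F' : Set G}
    (hS : ∀ a b, r a b → a⁻¹ * b ∈ S) (hF : Bd (fun a b => r a b ∧ p a ∧ p b) F)
    (hF' : Bd (fun a b => ¬ p a ∧ ¬ p b ∧ TransGen r a b ∧ a⁻¹ * b ∈ sc S F) F') :
    Bd r (un S F F') := by
  intro x y h
  have key : (p y ∧ ReflTransGen (fun a b => r a b ∧ p a ∧ p b) x y) ∨
      ∃ a b, x⁻¹ * a ∈ insert 1 (F * S) ∧ ¬ p b ∧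
        ReflTransGen (fun a b => ¬ p a ∧ ¬ p b ∧ TransGen r a b ∧ a⁻¹ * b ∈ sc S F) a b ∧
        (y = b ∨ (p y ∧ TransGen r b y ∧ ∃ z, b⁻¹ * z ∈ S ∧
          ReflTransGen (fun a b => r a b ∧ p a ∧ p b) z y)) := by
    induction h with
    | refl =>
      by_cases hx : p x
      · exact .inl ⟨hx, .refl⟩
      · exact .inr ⟨x, x, by simp, hx, .refl, .inl rfl⟩
    | @tail y y' _ hyy ih =>
      have h1 := hS _ _ hyy
      rcases ih with ⟨hy, hc⟩ | ⟨a, b, ha, hb, hc, hl⟩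
      · by_cases hy' : p y'
        · exact .inl ⟨hy', hc.tail ⟨hyy, hy, hy'⟩⟩
        · exact .inr ⟨y', y', .inr ⟨_, hF _ _ hc, _, h1, by simp [mul_assoc]⟩, hy', .refl, .inl rfl⟩
      · by_cases hy' : p y'
        · refine .inr ⟨a, b, ha, hb, hc, .inr ⟨hy', ?_⟩⟩
          rcases hl with rfl | ⟨hy, ht, z, hz, hd⟩
          · exact ⟨.single hyy, y', h1, .refl⟩
          · exact ⟨ht.tail hyy, z, hz, hd.tail ⟨hyy, hy, hy'⟩⟩
        · refine .inr ⟨a, y', ha, hy', hc.tail ⟨hb, hy', ?_⟩, .inl rfl⟩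
          rcases hl with rfl | ⟨-, ht, z, hz, hd⟩
          · exact ⟨.single hyy, .inl h1⟩
          · exact ⟨ht.tail hyy, .inr ⟨_, ⟨_, hz, _, hF _ _ hd, rfl⟩, _, h1, by simp [mul_assoc]⟩⟩
  rcases key with ⟨-, hc⟩ | ⟨a, b, ha, -, hc, hl⟩
  · exact .inl (hF _ _ hc)
  · refine .inr ⟨_, ⟨_, ha, _, hF' _ _ hc, rfl⟩, b⁻¹ * y, ?_, by simp [mul_assoc]⟩
    rcases hl with rfl | ⟨-, -, z, hz, hd⟩
    · simp
    · exact .inr ⟨_, hz, _, hF _ _ hd, by simp [mul_assoc]⟩

/-- A monochromatic step inside `A`. -/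
def Mo (S A : Set G) (c : G → κ) (a b : G) : Prop := a ∈ A ∧ b ∈ A ∧ c a = c b ∧ a⁻¹ * b ∈ S

/-- `A` has a colouring whose `S`-chains are bounded by `F`. -/
def Dm (κ : Type) (S F A : Set G) : Prop := ∃ c : G → κ, Bd (Mo S A c) F

theorem Dm.mono {S F A B : Set G} (h : Dm κ S F A) (hB : B ⊆ A) : Dm κ S F B :=
  h.imp fun _ hc => hc.mono fun _ _ h => ⟨hB h.1, hB h.2.1, h.2.2⟩

theorem Dm.shift {S F A B : Set G} (h : Dm κ S F A) (g : G) (hB : ∀ b ∈ B, g * b ∈ A) :
    Dm κ S F B := by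
  obtain ⟨c, hc⟩ := h
  refine ⟨fun x => c (g * x), fun x y hxy => ?_⟩
  have := hc (g * x) (g * y) (hxy.lift (g * ·) fun a b h =>
    ⟨hB _ h.1, hB _ h.2.1, h.2.2.1, by simpa [mul_assoc] using h.2.2.2⟩)
  simpa [mul_assoc] using this

theorem Dm.union {S F F' A B : Set G} (hA : Dm κ S F A) (hB : Dm κ (sc S F) F' B) :
    Dm κ S (un S F F') (A ∪ B) := by
  classical
  obtain ⟨c, hc⟩ := hA
  obtain ⟨d, hd⟩ := hB
  refine ⟨fun x => if x ∈ B then d x else c x,
    bd_union (p := fun x => x ∉ B) (fun _ _ h => h.2.2.2) (hc.mono ?_) (hd.mono ?_)⟩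
  · rintro a b ⟨⟨h1, h2, h3, h4⟩, ha, hb⟩
    exact ⟨h1.resolve_right ha, h2.resolve_right hb, by simpa [ha, hb] using h3, h4⟩
  · rintro a b ⟨ha, hb, ht, h4⟩
    rw [not_not] at ha hb
    have : (if a ∈ B then d a else c a) = if b ∈ B then d b else c b := by
      clear hb h4
      induction ht with
      | single h => exact h.2.2.1
      | tail _ h ih => exact ih.trans h.2.2.1
    exact ⟨ha, hb, by simpa [ha, hb] using this, h4⟩

theorem Dm.fibres {S F A : Set G} (π : G → I)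
    (hπ : ∀ a ∈ A, ∀ b ∈ A, a⁻¹ * b ∈ S → π a = π b)
    (h : ∀ i, Dm κ S F {a ∈ A | π a = i}) : Dm κ S F A := by
  choose c hc using h
  refine ⟨fun x => c (π x) x, fun x y hxy => hc (π x) x y ?_⟩
  have : π y = π x ∧ ReflTransGen (Mo S {a ∈ A | π a = π x} (c (π x))) x y := by
    induction hxy with
    | refl => exact ⟨rfl, .refl⟩
    | tail _ h ih =>
      obtain ⟨h1, h2, h3, h4⟩ := h
      have e := (hπ _ h1 _ h2 h4).symm.trans ih.1
      exact ⟨e, ih.2.tail ⟨⟨h1, ih.1⟩, ⟨h2, e⟩, by simpa only [ih.1, e] using h3, h4⟩⟩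
  exact this.2

theorem dm_empty [Nonempty κ] (S : Set G) : Dm κ S {1} ∅ := by
  refine ⟨fun _ => Classical.arbitrary κ, fun x y h => ?_⟩
  cases h with
  | refl => simp
  | tail _ h => exact h.1.elim

/-- A family of sets with colourings at all scales, uniformly. -/
def UD (κ : Type) (A : I → Set G) : Prop :=
  ∀ S : Set G, S.Finite → ∃ F : Set G, F.Finite ∧ ∀ i, Dm κ S F (A i)

theorem UD.union {A B : I → Set G} (hA : UD κ A) (hB : UD κ B) : UD κ fun i => A i ∪ B i := by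
  intro S hS
  obtain ⟨F, hF, h1⟩ := hA S hS
  obtain ⟨F', hF', h2⟩ := hB _ (sc_fin hS hF)
  exact ⟨_, un_fin hS hF hF', fun i => (h1 i).union (h2 i)⟩

theorem UD.biUnion [Nonempty κ] {J : Type} {P : Set J} (hP : P.Finite) {A : J → I → Set G}
    (h : ∀ p, UD κ (A p)) : UD κ fun i => ⋃ p ∈ P, A p i := by
  induction P, hP using Set.Finite.induction_on with
  | empty => exact fun S _ => ⟨{1}, finite_singleton _, fun _ => by simpa using dm_empty S⟩
  | insert _ _ ih => simpa only [biUnion_insert] using (h _).union ih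

theorem eqv_of_rtg {α : Type} {r : α → α → Prop} {x y : α} (h : ReflTransGen r x y) :
    EqvGen r x y := by
  induction h with
  | refl => exact .refl _
  | tail _ h ih => exact .trans _ _ _ ih (.rel _ _ h)

theorem AsdimLE.of_injective {H : Type} [Group H] {n : ℕ} (f : G →* H)
    (hf : Function.Injective f) (h : AsdimLE H n) : AsdimLE G n := by
  classical
  intro S
  obtain ⟨F, c, hc⟩ := h (S.image f)
  refine ⟨F.preimage f hf.injOn, c ∘ f, fun x y hxy => ?_⟩
  rw [Finset.mem_preimage, map_mul, map_inv]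
  refine hc _ _ ?_
  induction hxy with
  | rel a b h => exact .rel _ _ ⟨h.1, by
      rw [← map_inv, ← map_mul]; exact Finset.mem_image_of_mem _ h.2⟩
  | refl => exact .refl _
  | symm _ _ _ ih => exact .symm _ _ ih
  | trans _ _ _ _ _ i1 i2 => exact .trans _ _ _ i1 i2

theorem AsdimLE.dm {n : ℕ} {K : Subgroup G} (h : AsdimLE K n) {S : Set G} (hS : S.Finite) :
    ∃ F : Set G, F.Finite ∧ Dm (Fin (n + 1)) S F K := by
  classical
  obtain ⟨F, c, hc⟩ := h (hS.preimage K.subtype_injective.injOn).toFinset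
  let π : G → K := fun g => if h : g ∈ K then ⟨g, h⟩ else 1
  have hπ : ∀ g ∈ K, (π g : G) = g := fun g hg => by simp [π, hg]
  refine ⟨insert 1 (K.subtype '' F), (F.finite_toSet.image _).insert 1, c ∘ π, fun x y hxy => ?_⟩
  rcases hxy.cases_head with rfl | ⟨z, hz, -⟩
  · simp
  have : y ∈ K ∧ EqvGen (fun a b => c a = c b ∧
      a⁻¹ * b ∈ (hS.preimage K.subtype_injective.injOn).toFinset) (π x) (π y) := by
    induction hxy with
    | refl => exact ⟨hz.1, .refl _⟩
    | tail _ h ih =>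
      refine ⟨h.2.1, .trans _ _ _ ih.2 (.rel _ _ ⟨h.2.2.1, ?_⟩)⟩
      simpa [hπ _ h.1, hπ _ h.2.1] using h.2.2.2
  exact .inr ⟨_, hc _ _ this.2, by simp [hπ _ hz.1, hπ _ this.1]⟩

theorem asdimLE_of_dm {n : ℕ}
    (h : ∀ S : Set G, S.Finite → ∃ F : Set G, F.Finite ∧ Dm (Fin (n + 1)) S F univ) :
    AsdimLE G n := by
  intro S
  obtain ⟨F, hF, c, hc⟩ := h (S ∪ (S : Set G)⁻¹) (S.finite_toSet.union S.finite_toSet.inv)
  refine ⟨hF.toFinset, c, fun x y hxy => hF.mem_toFinset.2 (hc x y ?_)⟩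
  have sy : Std.Symm (Mo (S ∪ (S : Set G)⁻¹) univ c) := ⟨fun a b h =>
    ⟨trivial, trivial, h.2.2.1.symm, h.2.2.2.symm.imp (fun h => by simpa using h)
      fun h => by simpa using h⟩⟩
  induction hxy with
  | rel a b h => exact .single ⟨trivial, trivial, h.1, .inl h.2⟩
  | refl => exact .refl
  | symm _ _ _ ih => exact ReflTransGen.stdSymm.symm _ _ ih
  | trans _ _ _ _ _ i1 i2 => exact i1.trans i2

end Pool.Agent.Lib.MP_07d80f_al
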